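import Pool.Agent.H300R2.EC.Defs
import Pool.Agent.H455R2.FB_G5

/-!
Task X10: factorisation of the truncated Euler product of a quadratic polynomial.
-/

namespace Pool.Agent.H18R2.EC

open Finset Polynomial Filter
open Pool.Agent.H300R2.BH Pool.Agent.H300R2.EC

/-- X10 -/
theorem SS_quad (a b c : ℤ) (z : ℕ) (hz : 2 ≤ z) (ha : a ≠ 0)
    (h1 : ∀ p : ℕ, p.Prime → ¬ ((p : ℤ) ∣ a ∧ (p : ℤ) ∣ b ∧ (p : ℤ) ∣ c))
    (h2 : ¬ ((2 : ℤ) ∣ a + b ∧ (2 : ℤ) ∣ c)) :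
    SS z (C a * X ^ 2 + C b * X + C c) =
      (if (2 : ℤ) ∣ a + b then 2 else 1) * Pg a b 0 z * Pd a (b ^ 2 - 4 * a * c) 0 z := by
  have e0 : (Icc 1 z : Finset ℕ) = Ioc 0 z := by
    ext p
    rw [mem_Icc, mem_Ioc]
    omega
  have e1 : (if (2 : ℤ) ∣ a + b then (2 : ℝ) else 1) =
      ∏ p ∈ (Ioc 0 z : Finset ℕ), if p = 2 then (if (2 : ℤ) ∣ a + b then (2 : ℝ) else 1) else 1 := by
    rw [Finset.prod_ite_eq' (Ioc 0 z) 2 (fun _ => if (2 : ℤ) ∣ a + b then (2 : ℝ) else 1),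
      if_pos (mem_Ioc.2 ⟨by norm_num, hz⟩)]
  unfold SS Pg Pd
  rw [e1, e0, prod_filter, prod_filter, prod_filter, ← prod_mul_distrib, ← prod_mul_distrib]
  refine prod_congr rfl fun p _ => ?_
  by_cases hp : p.Prime
  · rw [if_pos hp]
    by_cases hp2 : p = 2
    · subst hp2
      have h5 : ¬ (Nat.Prime 2 ∧ 2 ≠ 2 ∧ ((2 : ℕ) : ℤ) ∣ a ∧ ((2 : ℕ) : ℤ) ∣ b) :=
        fun h => h.2.1 rfl
      have h6 : ¬ (Nat.Prime 2 ∧ 2 ≠ 2 ∧ ¬ ((2 : ℕ) : ℤ) ∣ a) := fun h => h.2.1 rfl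
      rw [Pool.Agent.H455R2.FB.quad_two a b c, if_pos rfl, if_neg h5, if_neg h6, mul_one,
        mul_one]
      by_cases h3 : (2 : ℤ) ∣ a + b
      · rw [if_pos h3, if_pos h3, if_neg (fun h4 => h2 ⟨h3, h4⟩)]
      · rw [if_neg h3, if_neg h3]
    · have : Fact p.Prime := ⟨hp⟩
      rw [Pool.Agent.H455R2.FB.quad_odd a b c p hp2, if_neg hp2, one_mul,
        jacobiSym.legendreSym.to_jacobiSym]
      by_cases h3 : (p : ℤ) ∣ a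
      · have h7 : ¬ (Nat.Prime p ∧ p ≠ 2 ∧ ¬ (p : ℤ) ∣ a) := fun h => h.2.2 h3
        rw [if_pos h3, if_neg h7, mul_one]
        by_cases h4 : (p : ℤ) ∣ b
        · have h8 : Nat.Prime p ∧ p ≠ 2 ∧ (p : ℤ) ∣ a ∧ (p : ℤ) ∣ b := ⟨hp, hp2, h3, h4⟩
          have h9 : ¬ (p : ℤ) ∣ c := fun h5 => h1 p hp ⟨h3, h4, h5⟩
          rw [if_pos h4, if_pos h8, if_neg h9]
        · have h8 : ¬ (Nat.Prime p ∧ p ≠ 2 ∧ (p : ℤ) ∣ a ∧ (p : ℤ) ∣ b) := fun h => h4 h.2.2.2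
          rw [if_neg h4, if_neg h8]
      · have h8 : ¬ (Nat.Prime p ∧ p ≠ 2 ∧ (p : ℤ) ∣ a ∧ (p : ℤ) ∣ b) := fun h => h3 h.2.2.1
        rw [if_neg h3, if_neg h8, if_pos ⟨hp, hp2, h3⟩, one_mul]
  · have hp2 : p ≠ 2 := fun h => hp (by rw [h]; exact Nat.prime_two)
    have h7 : ¬ (Nat.Prime p ∧ p ≠ 2 ∧ ¬ (p : ℤ) ∣ a) := fun h => hp h.1
    have h8 : ¬ (Nat.Prime p ∧ p ≠ 2 ∧ (p : ℤ) ∣ a ∧ (p : ℤ) ∣ b) := fun h => hp h.1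
    rw [if_neg hp, if_neg hp2, if_neg h7, if_neg h8, mul_one, mul_one]

end Pool.Agent.H18R2.EC
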